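import Pool.Agent.H41.HKB.Targets

/-! The asymptotic bound from the local one (module ASY). -/

set_option autoImplicit false

namespace Pool.Agent.H11.HKB

open Finset Pool.Agent.H41.HKB Pool.Agent.H42.BD Filter

theorem core_ineq {a η k n S S' : ℝ} {n0 : ℕ} (hη : 0 < η) (hηa : η < a)
    (hk : 0 ≤ k) (hn : 0 ≤ n) (hS : 0 ≤ S) (h1 : S - 8 * k * n ≤ S')
    (h2 : S ≤ n * n) (h3 : (n0 : ℝ) ≤ n → (a - η) * S' ^ 2 ≤ n ^ 3) :
    (a - η) * S ^ 2 ≤ n ^ 3 + (a * (16 * k + n0) + 1) * n * S := by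
  have ha : 0 < a := by linarith
  have hc : 0 < a - η := by linarith
  have hn3 : 0 ≤ n ^ 3 := by positivity
  have hn0 : (0 : ℝ) ≤ n0 := by positivity
  have e0 : (a - η) * S ^ 2 ≤ a * S ^ 2 := by nlinarith [sq_nonneg S]
  have p1 : 0 ≤ n * S := mul_nonneg hn hS
  have p2 : 0 ≤ a * k * (n * S) := by positivity
  have p3 : 0 ≤ a * n0 * (n * S) := by positivity
  rcases lt_or_ge n (n0 : ℝ) with hlt | hge
  · have e1 : S ≤ n0 * n := h2.trans (mul_le_mul_of_nonneg_right hlt.le hn)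
    have e2 : a * S ^ 2 ≤ a * (n0 * n * S) := by
      refine mul_le_mul_of_nonneg_left ?_ ha.le
      nlinarith
    nlinarith
  · rcases le_or_gt S (8 * k * n) with h | h
    · have e2 : a * S ^ 2 ≤ a * (8 * k * n * S) := by
        refine mul_le_mul_of_nonneg_left ?_ ha.le
        nlinarith
      nlinarith
    · have e3 : (S - 8 * k * n) ^ 2 ≤ S' ^ 2 := by
        have : 0 ≤ S - 8 * k * n := by linarith
        gcongr
      have e4 : S ^ 2 ≤ S' ^ 2 + 16 * k * n * S := by nlinarith [sq_nonneg (8 * k * n)]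
      have e5 : (a - η) * S ^ 2 ≤ (a - η) * (S' ^ 2 + 16 * k * n * S) :=
        mul_le_mul_of_nonneg_left e4 hc.le
      have e6 : (a - η) * (16 * k * n * S) ≤ a * (16 * k * n * S) := by
        refine mul_le_mul_of_nonneg_right (by linarith) ?_
        have : 16 * k * n * S = 16 * (k * (n * S)) := by ring
        rw [this]
        positivity
      have e7 := h3 hge
      nlinarith

theorem aux1 {w : ℝ} (hw : 0 < w) : (9 / 4) * w = 1 / (4 / 9 / w) := by
  field_simp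

theorem aux2 {c n : ℝ} (hc : 0 < c) : c * (n * (1 / c * n ^ 2)) = n ^ 3 := by
  field_simp

theorem const_eq {k : ℕ} (hk : 9 ≤ k) :
    1 / (2 * Real.sqrt (4 / 9 / Real.sqrt k ^ 3)) = 3 / 4 * (k : ℝ) ^ ((3 : ℝ) / 4) := by
  have hk0 : (0 : ℝ) < k := by
    have : 0 < k := by omega
    exact_mod_cast this
  set u : ℝ := (k : ℝ) ^ ((3 : ℝ) / 4) with hu
  have hu0 : 0 < u := Real.rpow_pos_of_pos hk0 _
  have hu2 : u ^ 2 = Real.sqrt k ^ 3 := by
    rw [← rpow32, hu, ← Real.rpow_natCast, ← Real.rpow_mul hk0.le]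
    norm_num
  rw [← hu2]
  have h1 : (4 : ℝ) / 9 / u ^ 2 = (2 / (3 * u)) ^ 2 := by
    field_simp
    norm_num
  rw [h1, Real.sqrt_sq (by positivity)]
  field_simp
  norm_num

open Classical in
theorem pf_ASY (hLOC : T_LOC) (hDEG : T_DEG) : T_ASY := by
  intro k hk
  have hk0 : (0 : ℝ) < k := by
    have : 0 < k := by omega
    exact_mod_cast this
  have ht : 0 < Real.sqrt k := Real.sqrt_pos.2 hk0
  have hce := const_eq hk
  obtain ⟨a, ha⟩ : ∃ a : ℝ, a = 4 / 9 / Real.sqrt k ^ 3 := ⟨_, rfl⟩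
  rw [← ha] at hce
  have ha0 : 0 < a := by rw [ha]; positivity
  obtain ⟨M, hM, hD⟩ := hDEG k (by omega)
  have hup : ∀ ε : ℝ, 0 < ε → ∀ᶠ n : ℕ in atTop,
      fT n k ≤ (3 / 4 * (k : ℝ) ^ ((3 : ℝ) / 4) + ε) * (n : ℝ) ^ ((3 : ℝ) / 2) := by
    intro ε hε
    rw [← hce]
    refine upper_of_ineq (k := k) ha0 (fun η hη hηa => ?_) hε
    have hc : 0 < a - η := by linarith
    have hlam : (9 / 4) * Real.sqrt k ^ 3 < 1 / (a - η) := by
      have h1 : (9 / 4) * Real.sqrt k ^ 3 = 1 / a := by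
        rw [ha]
        exact aux1 (pow_pos ht 3)
      rw [h1]
      exact one_div_lt_one_div_of_lt hc (by linarith)
    obtain ⟨n0, hn0⟩ := hLOC k M (1 / (a - η)) hk hM hlam
    have hB0 : 0 < a * (16 * (k : ℝ) + (n0 : ℝ)) + 1 := by
      have h1 : (0 : ℝ) ≤ n0 := Nat.cast_nonneg _
      have h2 : 0 ≤ a * (16 * (k : ℝ) + (n0 : ℝ)) := mul_nonneg ha0.le (by linarith)
      linarith
    refine ⟨a * (16 * k + n0) + 1, hB0, fun n G _ hG => ?_⟩
    obtain ⟨G', hG', hS⟩ := hD (Fin n) G hG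
    have hcard : Fintype.card (Fin n) = n := Fintype.card_fin n
    rw [hcard] at hS
    have hSe : ∑ v, ((nb G v).card : ℝ) = 2 * (G.edgeFinset.card : ℝ) := by
      rw [sum_nb, edge_card_eq G _ (SimpleGraph.fintypeEdgeSet G)]
    rw [← hSe]
    refine core_ineq (S' := ∑ v, ((nb G' v).card : ℝ)) hη hηa hk0.le (Nat.cast_nonneg n)
      (sum_nonneg fun v _ => Nat.cast_nonneg _) hS ?_ ?_
    · have h1 : ∀ v ∈ (univ : Finset (Fin n)), ((nb G v).card : ℝ) ≤ n := by
        intro v _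
        have : (nb G v).card ≤ n := (card_le_univ _).trans hcard.le
        exact_mod_cast this
      have := sum_le_card_nsmul _ _ _ h1
      rwa [card_univ, hcard, nsmul_eq_mul] at this
    · intro hn
      have h2 := hn0 (Fin n) G' (by rw [hcard]; exact_mod_cast hn) hG'
      rw [hcard] at h2
      have h3 := sq_sum_le_card_mul_sum_sq (s := (univ : Finset (Fin n)))
        (f := fun x => ((nb G' x).card : ℝ))
      rw [card_univ, hcard] at h3
      have h4 : (∑ v, ((nb G' v).card : ℝ)) ^ 2 ≤ n * (1 / (a - η) * (n : ℝ) ^ 2) :=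
        h3.trans (mul_le_mul_of_nonneg_left h2.le (Nat.cast_nonneg n))
      have h5 := mul_le_mul_of_nonneg_left h4 hc.le
      have h6 : (a - η) * (n * (1 / (a - η) * (n : ℝ) ^ 2)) = (n : ℝ) ^ 3 := aux2 hc
      rwa [h6] at h5
  have hup2 : ∀ ε : ℝ, 0 < ε → ∀ᶠ n : ℕ in atTop,
      fT n k / (n : ℝ) ^ ((3 : ℝ) / 2) ≤ 3 / 4 * (k : ℝ) ^ ((3 : ℝ) / 4) + ε := by
    intro ε hε
    filter_upwards [hup ε hε, Filter.eventually_gt_atTop 0] with n hn hn0
    have : (0 : ℝ) < (n : ℝ) ^ ((3 : ℝ) / 2) := Real.rpow_pos_of_pos (by exact_mod_cast hn0) _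
    rw [div_le_iff₀ this]
    exact hn
  have hcob : Filter.IsCoboundedUnder (· ≤ ·) atTop
      (fun n : ℕ => fT n k / (n : ℝ) ^ ((3 : ℝ) / 2)) :=
    Filter.IsCoboundedUnder.of_frequently_ge (a := 0)
      (Filter.Frequently.of_forall (fun n => fT_div_nonneg n k))
  refine le_of_forall_pos_le_add (fun ε hε => ?_)
  exact Filter.limsup_le_of_le hcob (hup2 ε hε)

end Pool.Agent.H11.HKB
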